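import Mathlib

/-!
# From exponentially few exceptional matrices to almost all infinite random matrices

If for every `m` at most `C m |A| ^ (n k - δ m k)` of the matrices in `A ^ (n k)` are exceptional of type `m`
(`k ≥ k₀ m`), then there is a slowly growing function `w` such that for an infinite random matrix with
independent entries which are uniformly distributed on `A` the first `k` columns are not exceptional of type
`w k` for all large `k`, with probability one (Borel-Cantelli).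
-/

set_option autoImplicit false

namespace Pool.Agent.Q311.BC

open Filter Topology MeasureTheory
open scoped ENNReal

/-- the entries `a_{j,i}` (`j < n`, `i = 0, 1, …`) of the random matrix `a` are independent and uniformly
distributed on `A`: for every `k` the first `k` columns form every given matrix with entries in `A` with the
probability `|A| ^ (-n k)` -/
def Uniform {Ω : Type} [MeasurableSpace Ω] (μ : Measure Ω) {n : ℕ} (A : Finset ℚ)
    (a : Ω → Fin n → ℕ → ℚ) : Prop :=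
  (∀ ω j i, a ω j i ∈ A) ∧ ∀ (k : ℕ) (M : Fin n → Fin k → ℚ), (∀ j i, M j i ∈ A) →
    μ {ω | ∀ (j : Fin n) (i : Fin k), a ω j i = M j i} = ((A.card : ℝ≥0∞) ^ (n * k))⁻¹

theorem diag (P : ℕ → ℕ → Prop) (h : ∀ m, ∀ᶠ k in atTop, P m k) :
    ∃ w : ℕ → ℕ, Tendsto w atTop atTop ∧ ∀ᶠ k in atTop, P (w k) k := by
  classical
  simp only [eventually_atTop] at h
  choose K hK using h
  set w : ℕ → ℕ := fun k => Nat.findGreatest (fun m => ∀ m' ≤ m, K m' ≤ k) k with hw
  refine ⟨w, ?_, ?_⟩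
  · rw [tendsto_atTop]
    intro M
    filter_upwards [eventually_ge_atTop (max M ((Finset.range (M + 1)).sup K))] with k hk
    refine Nat.le_findGreatest (le_of_max_le_left hk) fun m' hm' => ?_
    refine le_trans ?_ (le_of_max_le_right hk)
    exact Finset.le_sup (f := K) (Finset.mem_range.2 (by omega))
  · filter_upwards [eventually_ge_atTop (K 0)] with k hk
    have h0 : ∀ m' ≤ w k, K m' ≤ k := by
      have := Nat.findGreatest_spec (P := fun m => ∀ m' ≤ m, K m' ≤ k) (m := 0) (n := k) (Nat.zero_le _)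
        (fun m' hm' => by rw [Nat.le_zero.1 hm']; exact hk)
      exact this
    exact hK (w k) k (h0 _ le_rfl)

/-- `C 2 ^ (-δ k) ≤ 1 / (k + 1) ^ 2` for large `k` -/
theorem small (C δ : ℝ) (hδ : 0 < δ) :
    ∀ᶠ k : ℕ in atTop, C * (2 : ℝ) ^ (-(δ * k)) ≤ 1 / ((k : ℝ) + 1) ^ 2 := by
  have h1 : Tendsto (fun x : ℝ => x ^ (2 : ℝ) * Real.exp (-(δ * Real.log 2) * x)) atTop (𝓝 0) :=
    tendsto_rpow_mul_exp_neg_mul_atTop_nhds_zero 2 _ (mul_pos hδ (Real.log_pos one_lt_two))
  have h2 := (h1.comp (tendsto_natCast_atTop_atTop (R := ℝ))).const_mul (4 * |C|)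
  rw [mul_zero] at h2
  filter_upwards [h2.eventually_le_const one_pos, eventually_ge_atTop 1] with k hk hk1
  have hk1' : (1 : ℝ) ≤ k := by exact_mod_cast hk1
  have e1 : (2 : ℝ) ^ (-(δ * k)) = Real.exp (-(δ * Real.log 2) * k) := by
    rw [Real.rpow_def_of_pos two_pos]
    congr 1
    ring
  rw [le_div_iff₀ (by positivity), e1]
  simp only [Function.comp] at hk
  rw [Real.rpow_two] at hk
  have h3 : ((k : ℝ) + 1) ^ 2 ≤ 4 * (k : ℝ) ^ 2 := by nlinarith
  have h4 : 0 ≤ Real.exp (-(δ * Real.log 2) * k) := (Real.exp_pos _).le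
  calc C * Real.exp (-(δ * Real.log 2) * k) * ((k : ℝ) + 1) ^ 2
      ≤ |C| * Real.exp (-(δ * Real.log 2) * k) * ((k : ℝ) + 1) ^ 2 := by
        have := le_abs_self C
        gcongr
    _ ≤ |C| * Real.exp (-(δ * Real.log 2) * k) * (4 * (k : ℝ) ^ 2) := by
        gcongr
    _ = 4 * |C| * ((k : ℝ) ^ 2 * Real.exp (-(δ * Real.log 2) * k)) := by ring
    _ ≤ 1 := hk

open Classical in
theorem main (n : ℕ) (k₀ C : ℕ → ℕ) (δ : ℕ → ℝ) (hδ : ∀ m, 0 < δ m) :
    ∃ w : ℕ → ℕ, Tendsto w atTop atTop ∧ (∀ᶠ k in atTop, k₀ (w k) ≤ k) ∧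
      ∀ (Ω : Type) [MeasurableSpace Ω] (μ : Measure Ω) (A : Finset ℚ) (a : Ω → Fin n → ℕ → ℚ),
      2 ≤ A.card → Uniform μ A a → ∀ bad : (k : ℕ) → (Fin n → Fin k → ℚ) → Prop,
      (∀ᶠ k : ℕ in atTop, (((Fintype.piFinset fun _ : Fin n => Fintype.piFinset fun _ : Fin k => A).filter
        (bad k)).card : ℝ) ≤ C (w k) * (A.card : ℝ) ^ ((n * k : ℝ) - δ (w k) * k)) →
      ∀ᵐ ω ∂μ, ∀ᶠ k : ℕ in atTop, ¬ bad k (fun j i => a ω j i) := by
  obtain ⟨w, hw, hP⟩ := diag (fun m k => k₀ m ≤ k ∧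
    (C m : ℝ) * (2 : ℝ) ^ (-(δ m * k)) ≤ 1 / ((k : ℝ) + 1) ^ 2) (fun m =>
      (eventually_ge_atTop (k₀ m)).and (small (C m) (δ m) (hδ m)))
  refine ⟨w, hw, hP.mono fun k hk => hk.1, ?_⟩
  intro Ω _ μ A a hA ha bad hbad
  obtain ⟨K, hK⟩ := eventually_atTop.1 (hbad.and hP)
  -- the measure of the exceptional sets
  have hA0 : (0 : ℝ) < A.card := by
    have : 0 < A.card := by omega
    exact_mod_cast this
  have hmeas : ∀ k ≥ K, μ {ω | bad k (fun j i => a ω j i)} ≤ ENNReal.ofReal (1 / ((k : ℝ) + 1) ^ 2) := by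
    intro k hk
    obtain ⟨h1, -, h2⟩ := hK k hk
    set F := (Fintype.piFinset fun _ : Fin n => Fintype.piFinset fun _ : Fin k => A).filter (bad k) with hF
    have hsub : {ω | bad k (fun j i => a ω j i)} ⊆
        ⋃ M ∈ F, {ω | ∀ (j : Fin n) (i : Fin k), a ω j i = M j i} := by
      intro ω hω
      rw [Set.mem_iUnion₂]
      refine ⟨fun j i => a ω j i, ?_, fun j i => rfl⟩
      rw [hF, Finset.mem_filter]
      refine ⟨?_, hω⟩
      rw [Fintype.mem_piFinset]
      intro j
      rw [Fintype.mem_piFinset]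
      exact fun i => ha.1 ω j i
    have hmu : μ {ω | bad k (fun j i => a ω j i)} ≤ (F.card : ℝ≥0∞) * ((A.card : ℝ≥0∞) ^ (n * k))⁻¹ := by
      refine (measure_mono hsub).trans ((measure_biUnion_finset_le _ _).trans ?_)
      rw [← nsmul_eq_mul, ← Finset.sum_const]
      refine Finset.sum_le_sum fun M hM => le_of_eq (ha.2 k M ?_)
      rw [hF, Finset.mem_filter, Fintype.mem_piFinset] at hM
      intro j i
      exact (Fintype.mem_piFinset.1 (hM.1 j)) i
    refine hmu.trans ?_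
    have e1 : (F.card : ℝ≥0∞) * ((A.card : ℝ≥0∞) ^ (n * k))⁻¹ =
        ENNReal.ofReal ((F.card : ℝ) * ((A.card : ℝ) ^ (n * k))⁻¹) := by
      rw [ENNReal.ofReal_mul (Nat.cast_nonneg _), ENNReal.ofReal_natCast,
        ENNReal.ofReal_inv_of_pos (by positivity), ENNReal.ofReal_pow hA0.le, ENNReal.ofReal_natCast]
    rw [e1]
    refine ENNReal.ofReal_le_ofReal ?_
    refine le_trans ?_ h2
    have e2 : (A.card : ℝ) ^ ((n * k : ℝ) - δ (w k) * k) * ((A.card : ℝ) ^ (n * k))⁻¹ =
        (A.card : ℝ) ^ (-(δ (w k) * k)) := by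
      rw [← Real.rpow_natCast, ← Real.rpow_neg hA0.le, ← Real.rpow_add hA0]
      congr 1
      push_cast
      ring
    calc (F.card : ℝ) * ((A.card : ℝ) ^ (n * k))⁻¹
        ≤ (C (w k) * (A.card : ℝ) ^ ((n * k : ℝ) - δ (w k) * k)) * ((A.card : ℝ) ^ (n * k))⁻¹ := by
          gcongr
      _ = C (w k) * (A.card : ℝ) ^ (-(δ (w k) * k)) := by rw [mul_assoc, e2]
      _ ≤ C (w k) * (2 : ℝ) ^ (-(δ (w k) * k)) := by
          refine mul_le_mul_of_nonneg_left ?_ (Nat.cast_nonneg _)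
          have h3 : (2 : ℝ) ≤ A.card := by exact_mod_cast hA
          refine Real.rpow_le_rpow_of_nonpos two_pos h3 ?_
          have := mul_nonneg (hδ (w k)).le (Nat.cast_nonneg k : (0 : ℝ) ≤ k)
          linarith
  -- Borel-Cantelli
  have hsum : ∑' k : ℕ, μ (if K ≤ k then {ω | bad k (fun j i => a ω j i)} else ∅) ≠ ∞ := by
    have hs : Summable (fun k : ℕ => 1 / ((k : ℝ) + 1) ^ 2) := by
      have := (summable_nat_add_iff 1).2 (Real.summable_one_div_nat_pow.2 (one_lt_two))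
      refine this.congr fun k => ?_
      push_cast
      rfl
    refine ne_top_of_le_ne_top ?_ (ENNReal.tsum_le_tsum (g := fun k : ℕ => ENNReal.ofReal (1 / ((k : ℝ) + 1) ^ 2)) ?_)
    · rw [← ENNReal.ofReal_tsum_of_nonneg (fun k => by positivity) hs]
      exact ENNReal.ofReal_ne_top
    · intro k
      by_cases hk : K ≤ k
      · rw [if_pos hk]
        exact hmeas k hk
      · rw [if_neg hk, measure_empty]
        exact bot_le
  have hbc := ae_eventually_notMem hsum
  filter_upwards [hbc] with ω hω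
  filter_upwards [hω, eventually_ge_atTop K] with k hk hkK
  rw [if_pos hkK] at hk
  exact hk

end Pool.Agent.Q311.BC
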